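import Pool.Agent.Y261.JP.EulA
import Pool.Agent.Y697.MQ.Loc

/-!
# Project JP, job MF-EUL: the Euler product over the field
-/

set_option autoImplicit false
set_option linter.all false

open Finset NumberField IsDedekindDomain

namespace Pool.Agent.Y261.JP

open Pool.Agent.Y690.PP (G Prm nm qs)
open Pool.Agent.Y690.PP.Fn
open Pool.Agent.Y690.JP.MF
open Pool.Agent.Y697.MQ (OP leg fd2 GenBy Indep loc_id split_loc leg_ne leg_mul leg_prod
  leg_pow_two prim_iff_Pr)
open Pool.Agent.H921R2.TatePole (below nm_eq nm_summable)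
open Pool.Agent.W164.RC (Ip Ip_spec Ip_exists not_mem_both)

theorem qs_leg (p a : G) : qs p a = leg p a := by
  classical
  unfold qs leg
  simp only [sq]

theorem OP_iff (q : G) : OP q ↔ (Prime q ∧ Prm q) := by
  constructor
  · intro h
    exact ⟨h.pr, (Pool.Agent.Y697.MQ.Pr_iff q).1 h.pm⟩
  · rintro ⟨h1, h2⟩
    exact ⟨h1, (Pool.Agent.Y697.MQ.Pr_iff q).2 h2⟩

section

variable {K : Type} [Field K] [NumberField K]

theorem exists_op_place (ι : G →+* 𝓞 K) (v : HeightOneSpectrum (𝓞 K)) (h2 : ι 2 ∉ v.asIdeal) :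
    ∃ q : G, OP q ∧ ι q ∈ v.asIdeal := by
  have h3 := (nm_eq v).2.2
  have hpr := v.isPrime
  have hb : (below v : ℕ) ≠ 2 := by
    intro hb
    rw [hb] at h3
    apply h2
    rw [map_ofNat]
    exact_mod_cast h3
  obtain ⟨z, hz, hzv⟩ := Ip_exists (below v).2 hb ι v.asIdeal h3
  obtain ⟨h5, h6, -, -⟩ := Ip_spec (below v).2 hz
  exact ⟨z, ⟨h6, (prim_iff_Pr z).1 h5⟩, hzv⟩

theorem op_place_unique (ι : G →+* 𝓞 K) (v : HeightOneSpectrum (𝓞 K)) {p q : G} (hp : OP p)
    (hq : OP q) (hpv : ι p ∈ v.asIdeal) (hqv : ι q ∈ v.asIdeal) : p = q := by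
  by_contra hne
  exact not_mem_both ((hp.pr.irreducible.coprime_iff_not_dvd).2 fun h => hne (hp.dvd hq h)) hpv hqv

end

theorem inv_bound1 {y : ℂ} {w : ℝ} (hy : ‖y‖ ≤ w) (hw : w ≤ 1 / 4) :
    ‖(1 - y)⁻¹ - 1‖ ≤ 2 * w := by
  have hw0 : 0 ≤ w := (norm_nonneg y).trans hy
  have h3 : 1 / 2 ≤ ‖1 - y‖ := by
    have h4 := norm_sub_norm_le (1 : ℂ) y
    rw [norm_one] at h4
    linarith
  have h5 : (1 - y) ≠ 0 := by
    intro h
    rw [h, norm_zero] at h3
    norm_num at h3
  have h6 : (1 - y)⁻¹ - 1 = y / (1 - y) := by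
    field_simp
    ring
  rw [h6, norm_div, div_le_iff₀ (by linarith)]
  nlinarith

theorem t_EULF : SEULF := by
  classical
  intro hloc F _ _ ι s₀ D hD0 hs₀ hlaD hgen hgood m hm
  obtain ⟨r, hr1, hr2⟩ := hgen
  have h : GenBy ι s₀ r := ⟨hr1, hr2⟩
  obtain ⟨t, hts, htgen, htind0⟩ := h.minimal hs₀
  have htind : Indep t := htind0
  obtain ⟨M, hM⟩ : ∃ M : G, M = D * ∏ d ∈ s₀, d := ⟨_, rfl⟩
  rw [← hM]
  have hM0 : M ≠ 0 := by
    rw [hM]
    exact mul_ne_zero hD0 (Finset.prod_ne_zero_iff.2 hs₀)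
  set n : ℕ := 2 * m - 1 with hn
  have hn1 : n + 1 = 2 * m := by omega
  have hnodd : n % 2 = 1 := by omega
  choose! E e hE1 hE2 using fun J (hJ : J ∈ t.powerset) =>
    hgood J ((Finset.mem_powerset.1 hJ).trans hts)
  -- the global function
  obtain ⟨L, hL1, hL2, hL3⟩ := glob (t.powerset ×ˢ range (n + 1)) (fun i => E i.1)
    (fun i => i.2) (n := n) (k := m)
    (fun i hi => by
      have := Finset.mem_range.1 (Finset.mem_product.1 hi).2
      omega) hn1
    (fun i hi => by
      obtain ⟨hi1, hi2⟩ := Finset.mem_product.1 hi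
      have h5 := Finset.mem_range.1 hi2
      exact hE2 i.1 hi1 m (n - i.2) i.2 hm (by omega)) hM0
  -- places above two
  have hnot2 : ∀ v : HeightOneSpectrum (𝓞 F), ι M ∉ v.asIdeal → ι 2 ∉ v.asIdeal := by
    intro v hv h2
    apply hv
    have h3 : (2 : G) = la * star la := by
      unfold la
      decide
    have hla : ι la ∈ v.asIdeal := by
      rw [h3, map_mul] at h2
      rcases v.isPrime.mem_or_mem h2 with h4 | h4
      · exact h4
      · have h5 : star la = la * ⟨0, -1⟩ := by
          unfold la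
          decide
        rw [h5, map_mul] at h4
        rcases v.isPrime.mem_or_mem h4 with h6 | h6
        · exact h6
        · exfalso
          apply v.isPrime.ne_top
          rw [Ideal.eq_top_iff_one, ← map_one ι, show (1 : G) = ⟨0, 1⟩ * ⟨0, -1⟩ by decide,
            map_mul]
          exact v.asIdeal.mul_mem_left _ h6
    obtain ⟨c, hc⟩ := hlaD
    rw [hM, hc, map_mul, map_mul]
    exact v.asIdeal.mul_mem_right _ (v.asIdeal.mul_mem_right _ hla)
  have hex : ∀ v : HeightOneSpectrum (𝓞 F), ι M ∉ v.asIdeal → ∃ q : G, OP q ∧ ι q ∈ v.asIdeal :=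
    fun v hv => exists_op_place ι v (hnot2 v hv)
  choose! Q hQ1 hQ2 using hex
  have hmem : ∀ (q : G) (v : HeightOneSpectrum (𝓞 F)), OP q → ι q ∈ v.asIdeal →
      (ι M ∈ v.asIdeal ↔ q ∣ M) := by
    intro q v hq hv
    constructor
    · intro h1
      by_contra h2
      exact not_mem_both ((hq.pr.irreducible.coprime_iff_not_dvd).2 h2) hv h1
    · rintro ⟨c, hc⟩
      rw [hc, map_mul]
      exact v.asIdeal.mul_mem_right _ hv
  have hsplit : ∀ q : G, OP q → ¬ q ∣ M → ((∀ v : HeightOneSpectrum (𝓞 F), ι q ∈ v.asIdeal →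
      Ideal.absNorm v.asIdeal = q.norm.natAbs ^ fd2 q t) ∧
      Nat.card {v : HeightOneSpectrum (𝓞 F) // ι q ∈ v.asIdeal} * fd2 q t = 2 ^ t.card) ∧
      (∀ d ∈ t, ¬ q ∣ d) ∧ ¬ q ∣ D := by
    intro q hq hqM
    have h1 : ∀ d ∈ t, ¬ q ∣ d := by
      intro d hd h1
      apply hqM
      rw [hM]
      exact (h1.trans (Finset.dvd_prod_of_mem _ (hts hd))).mul_left _
    refine ⟨split_loc ι htgen htind (fun d hd => hs₀ d (hts hd)) hq h1, h1, ?_⟩
    intro h2
    apply hqM
    rw [hM]
    exact h2.mul_right _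
  -- the value of the symbols
  have hval : ∀ J ∈ t.powerset, ∀ q : G, OP q → ¬ q ∣ M →
      qs q (E J) = leg q D * ∏ d ∈ J, leg q d := by
    intro J hJ q hq hqM
    have h1 := hE1 J hJ
    have h2 : ¬ q ∣ D * ∏ d ∈ J, d := by
      intro h2
      apply hqM
      refine h2.trans ?_
      rw [hM]
      exact mul_dvd_mul_left D (Finset.prod_dvd_prod_of_subset _ _ _
        ((Finset.mem_powerset.1 hJ).trans hts))
    have h3 : ¬ q ∣ e J := fun h => h2 (by
      rw [h1, sq]; exact (h.mul_right _).mul_left _)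
    rw [qs_leg]
    have h4 : leg q (D * ∏ d ∈ J, d) = leg q (E J) := by
      rw [h1, leg_mul hq.pr, leg_pow_two hq.pr h3, mul_one]
    rw [← h4, leg_mul hq.pr, leg_prod hq.pr J (fun d => d)]
  -- the roots
  set c : G → ℂ := fun q => ((leg q D : ℤ) : ℂ) with hc
  have hcn : ∀ q : G, ¬ q ∣ D → c q ^ 2 = 1 ∧ c q ^ n = c q := by
    intro q hq
    have h1 : c q ^ 2 = 1 := by
      rcases leg_ne hq with h1 | h1 <;> simp only [hc, h1] <;> norm_num
    refine ⟨h1, ?_⟩
    obtain ⟨k, hk⟩ : ∃ k, n = 2 * k + 1 := ⟨n / 2, by omega⟩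
    rw [hk, pow_succ, pow_mul, h1, one_pow, one_mul]
  set A : HeightOneSpectrum (𝓞 F) → ℂ := fun v => (c (Q v) * (Q v : ℂ)) ^ fd2 (Q v) t with hA
  set B : HeightOneSpectrum (𝓞 F) → ℂ := fun v =>
    (c (Q v) * (starRingEnd ℂ) (Q v : ℂ)) ^ fd2 (Q v) t with hB
  -- the terms
  set y : ℂ → ℕ → G → ℂ := fun z j q =>
    c q * ((q : ℂ) ^ (n - j) * (starRingEnd ℂ) (q : ℂ) ^ j * ((q.norm : ℤ) : ℂ) ^ (-z)) with hy
  have hterm : ∀ (z : ℂ) (v : HeightOneSpectrum (𝓞 F)), ι M ∉ v.asIdeal → ∀ j ≤ n,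
      A v ^ (n - j) * B v ^ j * (qv v : ℂ) ^ (-z) = y z j (Q v) ^ fd2 (Q v) t := by
    intro z v hv j hj
    have hq := hQ1 v hv
    have hqv := hQ2 v hv
    have hqM : ¬ Q v ∣ M := fun h => hv ((hmem _ v hq hqv).2 h)
    obtain ⟨⟨h7, -⟩, -, h8⟩ := hsplit _ hq hqM
    have h9 : (qv v : ℂ) ^ (-z) = ((((Q v).norm : ℤ) : ℂ) ^ (-z)) ^ fd2 (Q v) t := by
      unfold qv
      rw [h7 v hqv, Pool.Agent.Y697.MQ.nat_pow_cpow]
      congr 2
      rw [← nm_cast]
      push_cast
      rfl
    rw [h9]
    simp only [hA, hB, hy]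
    rw [← pow_mul, ← pow_mul, mul_comm (fd2 (Q v) t) (n - j), mul_comm (fd2 (Q v) t) j, pow_mul,
      pow_mul, ← mul_pow, ← mul_pow]
    congr 1
    rw [mul_pow, mul_pow]
    have h10 : c (Q v) ^ (n - j) * c (Q v) ^ j = c (Q v) := by
      rw [← pow_add, Nat.sub_add_cancel hj, (hcn _ h8).2]
    calc _ = (c (Q v) ^ (n - j) * c (Q v) ^ j) * ((Q v : ℂ) ^ (n - j) *
          (starRingEnd ℂ) (Q v : ℂ) ^ j * (((Q v).norm : ℤ) : ℂ) ^ (-z)) := by ring
      _ = _ := by rw [h10]
  refine ⟨L, ⟨hL1, fun v => A v.1, fun v => B v.1, ?_, ?_⟩, hL2⟩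
  · -- the local roots
    rintro ⟨v, hv⟩
    have hq := hQ1 v hv
    have hqv := hQ2 v hv
    have hqM : ¬ Q v ∣ M := fun h => hv ((hmem _ v hq hqv).2 h)
    obtain ⟨⟨h7, -⟩, -, h8⟩ := hsplit _ hq hqM
    constructor
    · have h9 := hloc F ι ⟨Q v, (OP_iff _).1 hq⟩ v hqv D h8 (fd2 (Q v) t) (h7 v hqv)
      rw [h9]
      simp only [hA, hB, hc, qs_leg]
    · simp only [hA, hB]
      rw [← mul_pow]
      unfold qv
      rw [h7 v hqv]
      push_cast
      congr 1
      have h10 : (Q v : ℂ) * (starRingEnd ℂ) (Q v : ℂ) = (((Q v).norm.natAbs : ℕ) : ℂ) := by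
        rw [Complex.mul_conj]
        have h11 : Complex.normSq (Q v : ℂ) = (((Q v).norm.natAbs : ℕ) : ℝ) := by
          rw [Pool.Agent.Y697.MQ.normSq_G]
        rw [h11]
        push_cast
        rfl
      calc _ = c (Q v) ^ 2 * ((Q v : ℂ) * (starRingEnd ℂ) (Q v : ℂ)) := by ring
        _ = _ := by rw [(hcn _ h8).1, h10, one_mul]
  · -- the product
    intro z hz
    set f : HeightOneSpectrum (𝓞 F) → ℂ := fun v =>
      if ι M ∈ v.asIdeal then 1 else
        (∏ j ∈ range (n + 1), (1 - y z j (Q v) ^ fd2 (Q v) t))⁻¹ with hf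
    have hfs : HasProd f (L z) := by
      set e' : (Σ q : {q : G // OP q}, {v : HeightOneSpectrum (𝓞 F) // ι q.1 ∈ v.asIdeal}) →
        HeightOneSpectrum (𝓞 F) := fun x => x.2.1 with he'
      have hinj : Function.Injective e' := by
        rintro ⟨⟨p, hp⟩, ⟨v, hv⟩⟩ ⟨⟨q, hq⟩, ⟨w, hw⟩⟩ hvw
        simp only [he'] at hvw
        subst hvw
        have hpq := op_place_unique ι v hp hq hv hw
        subst hpq
        rfl
      have hout : ∀ v ∉ Set.range e', f v = 1 := by
        intro v hv
        simp only [hf]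
        rw [if_pos]
        by_contra hcon
        exact hv ⟨⟨⟨Q v, hQ1 v hcon⟩, ⟨v, hQ2 v hcon⟩⟩, rfl⟩
      have hmult : Multipliable f := by
        have hsum := nm_summable (K := F) (x := z.re - n / 2) (by linarith)
        have h5 : ∀ j ∈ range (n + 1), Multipliable (fun v : HeightOneSpectrum (𝓞 F) =>
            if ι M ∈ v.asIdeal then (1 : ℂ) else (1 - y z j (Q v) ^ fd2 (Q v) t)⁻¹) := by
          intro j hj
          have hjn : j ≤ n := by
            have := Finset.mem_range.1 hj
            omega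
          have h5 : Summable (fun v : HeightOneSpectrum (𝓞 F) =>
              ‖(if ι M ∈ v.asIdeal then (1 : ℂ) else (1 - y z j (Q v) ^ fd2 (Q v) t)⁻¹) - 1‖) := by
            refine Summable.of_norm_bounded_eventually (hsum.mul_left 2) ?_
            have h6 := hsum.tendsto_cofinite_zero.eventually
              (Iio_mem_nhds (by norm_num : (0 : ℝ) < 1 / 4))
            filter_upwards [h6] with v hv
            rw [norm_norm]
            split_ifs with hiq
            · rw [sub_self, norm_zero]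
              positivity
            · have hq := hQ1 v hiq
              have hqv := hQ2 v hiq
              have hqM : ¬ Q v ∣ M := fun h => hiq ((hmem _ v hq hqv).2 h)
              obtain ⟨⟨h7, -⟩, -, h8⟩ := hsplit _ hq hqM
              refine inv_bound1 ?_ (le_of_lt hv)
              have h9 : (Pool.Agent.H921R2.TatePole.nm v : ℝ) =
                  ((nm (Q v) : ℕ) : ℝ) ^ fd2 (Q v) t := by
                unfold Pool.Agent.H921R2.TatePole.nm
                rw [h7 v hqv]
                push_cast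
                rfl
              rw [h9, ← Real.rpow_natCast, ← Real.rpow_mul (Nat.cast_nonneg _), norm_pow]
              have h10 : ((nm (Q v) : ℕ) : ℝ) ^ ((fd2 (Q v) t : ℝ) * (-(z.re - n / 2))) =
                  (((nm (Q v) : ℕ) : ℝ) ^ ((n : ℝ) / 2 - z.re)) ^ fd2 (Q v) t := by
                rw [← Real.rpow_natCast (((nm (Q v) : ℕ) : ℝ) ^ ((n : ℝ) / 2 - z.re)),
                  ← Real.rpow_mul (Nat.cast_nonneg _)]
                congr 1
                ring
              rw [h10]
              apply pow_le_pow_left₀ (norm_nonneg _)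
              simp only [hy]
              rw [norm_mul, norm_pw hq.pr hjn]
              have hc1 : ‖c (Q v)‖ ≤ 1 := by
                simp only [hc]
                rw [← qs_leg]
                exact abs_qs _ _
              calc _ ≤ 1 * ((nm (Q v) : ℕ) : ℝ) ^ ((n : ℝ) / 2 - z.re) :=
                    mul_le_mul_of_nonneg_right hc1 (by positivity)
                _ = _ := one_mul _
          have h7 := multipliable_one_add_of_summable h5
          refine h7.congr (fun v => ?_)
          ring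
        have h6 := multipliable_prod h5
        refine h6.congr (fun v => ?_)
        simp only [hf]
        split_ifs with h
        · rw [Finset.prod_const_one]
        · rw [Finset.prod_inv_distrib]
      rw [← hinj.hasProd_iff hout]
      -- the outer product over the primary primes
      have hL3' : HasProd (fun q : {q : G // OP q} => if q.1 ∣ M then 1 else
          (∏ i ∈ t.powerset ×ˢ range (n + 1),
            ((1 : ℂ) - xt (E i.1) n i.2 z ⟨q.1, (OP_iff _).1 q.2⟩))⁻¹) (L z) := by
        have h1 := hL3 z hz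
        let eq : {q : G // OP q} ≃ PR :=
          { toFun := fun q => ⟨q.1, (OP_iff _).1 q.2⟩
            invFun := fun q => ⟨q.1, (OP_iff _).2 q.2⟩
            left_inv := fun q => rfl
            right_inv := fun q => rfl }
        exact (Equiv.hasProd_iff eq).2 h1
      refine HasProd.sigma_of_hasProd hL3' ?_ ((hinj.multipliable_iff hout).2 hmult)
      rintro ⟨q, hq⟩
      simp only [Function.comp_apply, he', hf]
      by_cases hqM : q ∣ M
      · rw [if_pos hqM]
        have h1 : (fun c : {v : HeightOneSpectrum (𝓞 F) // ι q ∈ v.asIdeal} =>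
            if ι M ∈ c.1.asIdeal then (1 : ℂ) else
              (∏ j ∈ range (n + 1), (1 - y z j (Q c.1) ^ fd2 (Q c.1) t))⁻¹) = fun _ => 1 := by
          funext c
          rw [if_pos ((hmem q c.1 hq c.2).2 hqM)]
        rw [h1]
        exact hasProd_one
      · rw [if_neg hqM]
        obtain ⟨⟨h7, h9⟩, h10, h8⟩ := hsplit q hq hqM
        have hfin : Finite {v : HeightOneSpectrum (𝓞 F) // ι q ∈ v.asIdeal} := by
          apply Nat.finite_of_card_ne_zero
          intro h1
          rw [h1, zero_mul] at h9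
          exact (pow_ne_zero t.card two_ne_zero) h9.symm
        have _ : Fintype {v : HeightOneSpectrum (𝓞 F) // ι q ∈ v.asIdeal} := Fintype.ofFinite _
        have h1 : (fun c : {v : HeightOneSpectrum (𝓞 F) // ι q ∈ v.asIdeal} =>
            if ι M ∈ c.1.asIdeal then (1 : ℂ) else
              (∏ j ∈ range (n + 1), (1 - y z j (Q c.1) ^ fd2 (Q c.1) t))⁻¹) = fun _ =>
            (∏ j ∈ range (n + 1), (1 - y z j q ^ fd2 q t))⁻¹ := by
          funext c
          have hcM : ι M ∉ c.1.asIdeal := fun h => hqM ((hmem q c.1 hq c.2).1 h)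
          rw [if_neg hcM, op_place_unique ι c.1 (hQ1 _ hcM) hq (hQ2 _ hcM) c.2]
        rw [h1]
        have h2 : (∏ i ∈ t.powerset ×ˢ range (n + 1),
            ((1 : ℂ) - xt (E i.1) n i.2 z ⟨q, (OP_iff _).1 hq⟩))⁻¹ =
            ∏ _c : {v : HeightOneSpectrum (𝓞 F) // ι q ∈ v.asIdeal},
            (∏ j ∈ range (n + 1), (1 - y z j q ^ fd2 q t))⁻¹ := by
          rw [Finset.prod_const, Finset.card_univ, ← Nat.card_eq_fintype_card, inv_pow,
            ← Finset.prod_pow, Finset.prod_product_right]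
          congr 1
          refine Finset.prod_congr rfl fun j hj => ?_
          rw [← loc_id h10 h9]
          refine Finset.prod_congr rfl fun J hJ => ?_
          unfold xt
          simp only [hy, hc]
          rw [hval J hJ q hq hqM]
          push_cast
          ring
        rw [h2]
        exact hasProd_fintype _
    -- restriction to the subtype
    have hsub : HasProd (f ∘ ((↑) : {v : HeightOneSpectrum (𝓞 F) | ι M ∉ v.asIdeal} →
        HeightOneSpectrum (𝓞 F))) (L z) := by
      refine (hasProd_subtype_iff_of_mulSupport_subset ?_).2 hfs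
      intro v hv
      by_contra hcon
      apply hv
      have h1 : ι M ∈ v.asIdeal := by
        by_contra h1
        exact hcon h1
      simp only [hf]
      rw [if_pos h1]
    have e1 : (f ∘ ((↑) : {v : HeightOneSpectrum (𝓞 F) | ι M ∉ v.asIdeal} →
        HeightOneSpectrum (𝓞 F))) = fun v : {v : HeightOneSpectrum (𝓞 F) // ι M ∉ v.asIdeal} =>
        (∏ j ∈ range (n + 1), (1 - A v.1 ^ (n - j) * B v.1 ^ j * (qv v.1 : ℂ) ^ (-z)))⁻¹ := by
      funext v
      obtain ⟨v, hv⟩ := v
      have hv' : ι M ∉ v.asIdeal := hv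
      simp only [Function.comp_apply, hf]
      rw [if_neg hv']
      congr 1
      refine Finset.prod_congr rfl fun j hj => ?_
      have hjn : j ≤ n := by
        have := Finset.mem_range.1 hj
        omega
      rw [hterm z v hv' j hjn]
    rw [e1] at hsub
    exact hsub

end Pool.Agent.Y261.JP
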