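import Pool.Agent.Y690.JP.Stm2

/-!
# Project JP, job MF-EUL: the side of the characters
-/

set_option autoImplicit false
set_option linter.all false

open Finset

namespace Pool.Agent.Y261.JP

open Pool.Agent.Y690.PP (G Prm nm qs)
open Pool.Agent.Y690.PP.Fn

abbrev PR := Pool.Agent.Y690.PP.Pr

/-- the term of the Euler product -/
noncomputable def xt (E : G) (n j : ℕ) (z : ℂ) (q : PR) : ℂ :=
  (qs q.1 E : ℂ) * (q.1 : ℂ) ^ (n - j) * (starRingEnd ℂ) (q.1 : ℂ) ^ j *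
    ((q.1.norm : ℤ) : ℂ) ^ (-z)

theorem two_le_nm' {q : G} (hq : Prime q) : 2 ≤ nm q := by
  have h1 : nm q ≠ 1 := fun h => hq.not_isUnit (Zsqrtd.norm_eq_one_iff.1 h)
  have h0 : nm q ≠ 0 := by
    intro h
    apply hq.ne_zero
    have h2 : q.norm = 0 := Int.natAbs_eq_zero.1 h
    exact (GaussianInt.norm_eq_zero (x := q)).1 h2
  omega

theorem nm_cast (q : G) : ((nm q : ℕ) : ℤ) = q.norm := by
  unfold nm
  rw [Int.natAbs_of_nonneg (GaussianInt.norm_nonneg q)]

theorem norm_G (q : G) : ‖(q : ℂ)‖ = ((nm q : ℕ) : ℝ) ^ (1 / 2 : ℝ) := by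
  have h1 : Complex.normSq (q : ℂ) = ((nm q : ℕ) : ℝ) := by
    have h2 : ((q.norm : ℤ) : ℝ) = Complex.normSq (q : ℂ) := GaussianInt.intCast_real_norm q
    rw [← h2, ← nm_cast]
    push_cast
    rfl
  rw [← Real.sqrt_eq_rpow, ← h1, Complex.normSq_eq_norm_sq, Real.sqrt_sq (norm_nonneg _)]

theorem abs_qs (p a : G) : ‖((qs p a : ℤ) : ℂ)‖ ≤ 1 := by
  unfold qs
  split_ifs <;> simp

theorem norm_pw {q : G} (hq : Prime q) {n j : ℕ} (hj : j ≤ n) (z : ℂ) :
    ‖(q : ℂ) ^ (n - j) * (starRingEnd ℂ) (q : ℂ) ^ j * ((q.norm : ℤ) : ℂ) ^ (-z)‖ =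
      ((nm q : ℕ) : ℝ) ^ ((n : ℝ) / 2 - z.re) := by
  have h2 := two_le_nm' hq
  have hpos : (0 : ℝ) < ((nm q : ℕ) : ℝ) := by exact_mod_cast (by omega : 0 < nm q)
  have h3 : (((q.norm : ℤ)) : ℂ) = (((nm q : ℕ) : ℝ) : ℂ) := by
    rw [← nm_cast]
    push_cast
    rfl
  rw [h3, norm_mul, norm_mul, norm_pow, norm_pow, RCLike.norm_conj, ← pow_add,
    Nat.sub_add_cancel hj, Complex.norm_cpow_eq_rpow_re_of_pos hpos, Complex.neg_re, norm_G,
    ← Real.rpow_natCast, ← Real.rpow_mul hpos.le, ← Real.rpow_add hpos]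
  congr 1
  ring

theorem norm_xt (E : G) {n j : ℕ} (hj : j ≤ n) (z : ℂ) (q : PR) :
    ‖xt E n j z q‖ ≤ ((nm q.1 : ℕ) : ℝ) ^ ((n : ℝ) / 2 - z.re) := by
  unfold xt
  rw [mul_assoc, mul_assoc, ← mul_assoc ((q.1 : ℂ) ^ (n - j)), norm_mul, norm_pw q.2.1 hj]
  have h1 := abs_qs q.1 E
  calc _ ≤ 1 * ((nm q.1 : ℕ) : ℝ) ^ ((n : ℝ) / 2 - z.re) :=
        mul_le_mul_of_nonneg_right h1 (by positivity)
    _ = _ := one_mul _

theorem norm_xt_lt (E : G) {n j : ℕ} (hj : j ≤ n) {z : ℂ} (hz : (n : ℝ) / 2 < z.re) (q : PR) :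
    ‖xt E n j z q‖ < 1 := by
  refine (norm_xt E hj z q).trans_lt ?_
  apply Real.rpow_lt_one_of_one_lt_of_neg
  · have := two_le_nm' q.2.1
    exact_mod_cast (by omega : 1 < nm q.1)
  · linarith

theorem one_sub_ne (E : G) {n j : ℕ} (hj : j ≤ n) {z : ℂ} (hz : (n : ℝ) / 2 < z.re) (q : PR) :
    1 - xt E n j z q ≠ 0 := by
  intro h
  have h1 := norm_xt_lt E hj hz q
  rw [← sub_eq_zero.1 h, norm_one] at h1
  exact lt_irrefl _ h1

theorem diff_xt (E : G) (n j : ℕ) (q : PR) : Differentiable ℂ (fun z => xt E n j z q) := by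
  unfold xt
  have h0 : ((q.1.norm : ℤ) : ℂ) ≠ 0 := by
    have h2 := two_le_nm' q.2.1
    have h3 := nm_cast q.1
    intro h
    have h4 : q.1.norm = 0 := by exact_mod_cast h
    omega
  apply Differentiable.mul (differentiable_const _)
  exact (differentiable_id.neg).const_cpow (Or.inl h0)

theorem fin_dvd' {M : G} (hM : M ≠ 0) : {q : G | q ∣ M}.Finite := by
  have h1 : {q : G | q ∣ M} ⊆
      (fun q : G => (q.re, q.im)) ⁻¹' (Set.Icc (-(nm M : ℤ)) (nm M) ×ˢ Set.Icc (-(nm M : ℤ)) (nm M)) := by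
    rintro q ⟨c, hc⟩
    have hc0 : c ≠ 0 := by
      rintro rfl
      exact hM (by rw [hc, mul_zero])
    have h2 : M.norm = q.norm * c.norm := by rw [hc, Zsqrtd.norm_mul]
    have h3 : 0 ≤ q.norm := GaussianInt.norm_nonneg q
    have h4 : 0 < c.norm := GaussianInt.norm_pos.2 hc0
    have h5 : q.norm ≤ (nm M : ℤ) := by
      rw [nm_cast, h2]
      nlinarith
    have h6 : q.norm = q.re * q.re + q.im * q.im := by
      rw [Zsqrtd.norm_def]
      ring
    have h7 : q.re ^ 2 ≤ q.norm := by rw [h6]; nlinarith [mul_self_nonneg q.im]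
    have h8 : q.im ^ 2 ≤ q.norm := by rw [h6]; nlinarith [mul_self_nonneg q.re]
    have key : ∀ x : ℤ, x ^ 2 ≤ q.norm → -(nm M : ℤ) ≤ x ∧ x ≤ nm M := by
      intro x hx
      constructor
      · nlinarith [sq_nonneg (x + 1), sq_nonneg x]
      · nlinarith [sq_nonneg (x - 1), sq_nonneg x]
    exact ⟨key _ h7, key _ h8⟩
  refine Set.Finite.subset (Set.Finite.preimage ?_ ((Set.finite_Icc _ _).prod (Set.finite_Icc _ _))) h1
  intro x _ y _ hxy
  have h2 := congrArg Prod.fst hxy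
  have h3 := congrArg Prod.snd hxy
  exact Zsqrtd.ext h2 h3

theorem glob {I : Type} (s : Finset I) (E : I → G) (jj : I → ℕ) {n k : ℕ}
    (hj : ∀ i ∈ s, jj i ≤ n) (hk : n + 1 = 2 * k)
    (hL : ∀ i ∈ s, ∃ L : ℂ → ℂ, IsLFunction (E i) (n - jj i) (jj i) L ∧ L k ≠ 0) {M : G}
    (hM : M ≠ 0) :
    ∃ F : ℂ → ℂ, Differentiable ℂ F ∧ F k ≠ 0 ∧ ∀ z : ℂ, (n : ℝ) / 2 + 1 < z.re →
      HasProd (open Classical in fun q : PR => if q.1 ∣ M then 1 else
        (∏ i ∈ s, (1 - xt (E i) n (jj i) z q))⁻¹) (F z) := by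
  classical
  choose! L hL1 hL2 using hL
  have hfin : {q : PR | q.1 ∣ M}.Finite :=
    Set.Finite.preimage (f := fun q : PR => q.1) (fun x _ y _ h => Subtype.ext h) (fin_dvd' hM)
  set B : Finset PR := hfin.toFinset with hB
  have hBm : ∀ q : PR, q ∈ B ↔ q.1 ∣ M := by
    intro q
    rw [hB, Set.Finite.mem_toFinset]
    rfl
  have hkk : (n : ℝ) / 2 < ((k : ℂ)).re := by
    have h1 : (n : ℝ) + 1 = 2 * k := by exact_mod_cast hk
    rw [Complex.natCast_re]
    linarith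
  refine ⟨fun z => (∏ i ∈ s, L i z) * ∏ q ∈ B, ∏ i ∈ s, (1 - xt (E i) n (jj i) z q), ?_, ?_, ?_⟩
  · apply Differentiable.mul
    · apply Differentiable.fun_finsetProd
      intro i hi
      exact (hL1 i hi).1
    · apply Differentiable.fun_finsetProd
      intro q hq
      apply Differentiable.fun_finsetProd
      intro i hi
      exact (differentiable_const _).sub (diff_xt _ _ _ _)
  · apply mul_ne_zero
    · exact Finset.prod_ne_zero_iff.2 hL2
    · refine Finset.prod_ne_zero_iff.2 fun q _ => Finset.prod_ne_zero_iff.2 fun i hi => ?_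
      exact one_sub_ne _ (hj i hi) hkk q
  · intro z hz
    have h1 : HasProd (fun q : PR => (∏ i ∈ s, (1 - xt (E i) n (jj i) z q))⁻¹) (∏ i ∈ s, L i z) := by
      have h2 : ∀ i ∈ s, HasProd (fun q : PR => (1 - xt (E i) n (jj i) z q)⁻¹) (L i z) := by
        intro i hi
        refine (hL1 i hi).2 z ?_
        have h3 : (((n - jj i : ℕ)) : ℝ) + (jj i : ℝ) = n := by
          have := Nat.sub_add_cancel (hj i hi)
          exact_mod_cast this
        rw [h3]
        exact hz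
      have h3 := hasProd_prod h2
      have e : (fun q : PR => (∏ i ∈ s, (1 - xt (E i) n (jj i) z q))⁻¹) =
          fun q : PR => ∏ i ∈ s, (1 - xt (E i) n (jj i) z q)⁻¹ := by
        funext q
        rw [Finset.prod_inv_distrib]
      rw [e]
      exact h3
    have h2 : HasProd (fun q : PR => if q.1 ∣ M then ∏ i ∈ s, (1 - xt (E i) n (jj i) z q) else 1)
        (∏ q ∈ B, ∏ i ∈ s, (1 - xt (E i) n (jj i) z q)) := by
      have h3 := hasProd_prod_of_ne_finset_one (L := SummationFilter.unconditional _)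
        (f := fun q : PR => if q.1 ∣ M then ∏ i ∈ s, (1 - xt (E i) n (jj i) z q) else 1)
        (s := B) (by
          intro q hq
          rw [hBm] at hq
          rw [if_neg hq])
      have e : ∏ q ∈ B, (if q.1 ∣ M then ∏ i ∈ s, (1 - xt (E i) n (jj i) z q) else 1) =
          ∏ q ∈ B, ∏ i ∈ s, (1 - xt (E i) n (jj i) z q) :=
        Finset.prod_congr rfl fun q hq => if_pos ((hBm q).1 hq)
      rw [e] at h3
      exact h3
    have h3 := h1.mul h2
    have e : (fun q : PR => if q.1 ∣ M then 1 else (∏ i ∈ s, (1 - xt (E i) n (jj i) z q))⁻¹) =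
        fun q : PR => (∏ i ∈ s, (1 - xt (E i) n (jj i) z q))⁻¹ *
          (if q.1 ∣ M then ∏ i ∈ s, (1 - xt (E i) n (jj i) z q) else 1) := by
      funext q
      have hne : ∏ i ∈ s, (1 - xt (E i) n (jj i) z q) ≠ 0 :=
        Finset.prod_ne_zero_iff.2 fun i hi => one_sub_ne _ (hj i hi) (by linarith) q
      split_ifs with h
      · rw [inv_mul_cancel₀ hne]
      · rw [mul_one]
    rw [e]
    exact h3

end Pool.Agent.Y261.JP
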